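import Pool.Agent.Helper34.BD.Fin

/-! Injectivity of the Radon transform in the plane for bounded continuous functions: a continuous
function which is integrable with integral zero on every line vanishes if it is bounded, or, more
generally, if some finite nontrivial combination of its translates in one direction is bounded.
No decay, no smoothness, no uniformity in the line is assumed. -/

set_option autoImplicit false

open MeasureTheory

namespace Pool.Agent.Results.MP_9de3af_an.BoundedFunctions

theorem result (f : ℝ × ℝ → ℝ) (hf : Continuous f)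
    (hline : ∀ θ p : ℝ, Integrable (fun t : ℝ =>
      f (p * Real.cos θ - t * Real.sin θ, p * Real.sin θ + t * Real.cos θ)))
    (hRadon : ∀ θ p : ℝ,
      ∫ t : ℝ, f (p * Real.cos θ - t * Real.sin θ, p * Real.sin θ + t * Real.cos θ) = 0)
    (e : ℝ × ℝ) (he : e ≠ 0) (s : Finset ℝ) (c : ℝ → ℝ) (hc : ∃ r ∈ s, c r ≠ 0)
    (hbdd : ∃ C : ℝ, ∀ x y : ℝ, |∑ r ∈ s, c r * f (x + r * e.1, y + r * e.2)| ≤ C) :
    f = 0 := by
  obtain ⟨C, hC⟩ := hbdd
  exact Pool.Agent.Helper34.BD.combination_main hf hline hRadon he s c hc
    (C0 := C) (fun x => hC x.1 x.2)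

end Pool.Agent.Results.MP_9de3af_an.BoundedFunctions
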