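import Pool.Agent.Helper34.Radon.Bd.Main

/-! Injectivity of the Radon transform in the plane for bounded continuous functions which are
integrable on the strips of all but countably many directions, without any growth condition on
the norms on parallel lines and without uniformity in the direction. -/

set_option autoImplicit false

open MeasureTheory

namespace Pool.Agent.Results.MP_9de3af_an.BoundedStrips

theorem result (f : ℝ × ℝ → ℝ) (hf : Continuous f) (hb : ∃ C : ℝ, ∀ x, |f x| ≤ C)
    (hline : ∀ θ : ℝ, ∀ᵐ p : ℝ, Integrable (fun t : ℝ =>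
      f (p * Real.cos θ - t * Real.sin θ, p * Real.sin θ + t * Real.cos θ)))
    (hstrip : {θ : ℝ | ¬ ∀ r : ℝ, IntegrableOn f
      {x : ℝ × ℝ | |x.1 * Real.cos θ + x.2 * Real.sin θ| ≤ r}}.Countable)
    (hRadon : ∀ᵐ θ : ℝ, ∀ᵐ p : ℝ,
      ∫ t : ℝ, f (p * Real.cos θ - t * Real.sin θ, p * Real.sin θ + t * Real.cos θ) = 0) :
    f = 0 :=
  Pool.Agent.Helper34.Radon.Bd.angle_main f hf hb hline hstrip hRadon

end Pool.Agent.Results.MP_9de3af_an.BoundedStrips
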