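import Pool.Agent.Helper12.RD.Fin

/-! Injectivity of the Radon transform in the plane for continuous functions of at most polynomial
growth which are integrable on every line, when the integrals of `g / t` over the ends of the
lines tend to zero locally uniformly, where `g` is some finite combination of translates of the
function in one direction (for example the function itself, or an iterated difference).  There is
no condition on the norms on the lines beyond finiteness. -/

set_option autoImplicit false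

open MeasureTheory

namespace Pool.Agent.Results.MP_9de3af_an.LocallyUniformTails

theorem result (f : ℝ × ℝ → ℝ) (hf : Continuous f)
    (hgrowth : ∃ c : ℝ, ∃ m : ℕ, 0 < c ∧
      ∀ x y : ℝ, |f (x, y)| ≤ c * (1 + (Real.sqrt (x ^ 2 + y ^ 2)) ^ m))
    (hline : ∀ θ p : ℝ, Integrable (fun t : ℝ =>
      f (p * Real.cos θ - t * Real.sin θ, p * Real.sin θ + t * Real.cos θ)))
    (hRadon : ∀ θ p : ℝ,
      ∫ t : ℝ, f (p * Real.cos θ - t * Real.sin θ, p * Real.sin θ + t * Real.cos θ) = 0)
    (e : ℝ × ℝ) (he : e ≠ 0) (s : Finset ℝ) (c : ℝ → ℝ) (hc : ∃ r ∈ s, c r ≠ 0)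
    (htail : ∀ R ε : ℝ, 0 < ε → ∃ Y₀ : ℝ, 0 < Y₀ ∧ ∀ θ p : ℝ, |p| ≤ R →
      ∀ Y Y' : ℝ, Y₀ ≤ Y → Y ≤ Y' →
        |∫ t in Y..Y', (∑ r ∈ s, c r *
          f (p * Real.cos θ - t * Real.sin θ + r * e.1,
            p * Real.sin θ + t * Real.cos θ + r * e.2)) / t| ≤ ε) :
    f = 0 := by
  obtain ⟨C0, k, hb⟩ := Pool.Agent.Helper12.RD.growth hgrowth
  exact Pool.Agent.Helper12.RD.angle_final hf hb hline hRadon he s c hc htail

end Pool.Agent.Results.MP_9de3af_an.LocallyUniformTails
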