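import Pool.Agent.Helper34.Radon.Rot

/-! Injectivity of the Radon transform in the plane when the norms on parallel lines grow at most
polynomially, with an exponent and a constant depending on the direction in an arbitrary way. -/

set_option autoImplicit false

open MeasureTheory

namespace Pool.Agent.Results.MP_9de3af_an.NonuniformGrowth

theorem result (f : ℝ × ℝ → ℝ)
    (htemp : ∃ k : ℕ, Integrable (fun x : ℝ × ℝ => f x / (1 + ‖x‖) ^ k))
    (hRadon : ∀ θ : ℝ, ∀ᵐ p : ℝ,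
      ∫ t : ℝ, f (p * Real.cos θ - t * Real.sin θ, p * Real.sin θ + t * Real.cos θ) = 0)
    (hdir : ∀ θ : ℝ,
      (∃ k : ℕ, Integrable
        (fun x : ℝ × ℝ => f x / (1 + |x.1 * Real.cos θ + x.2 * Real.sin θ|) ^ k)) ∨
      (∃ ε : ℝ, 0 < ε ∧ IntegrableOn (fun x : ℝ × ℝ => f x / (1 + ‖x‖))
        {x : ℝ × ℝ | |x.1 * Real.cos θ + x.2 * Real.sin θ| ≤ ε * ‖x‖})) :
    (∀ᵐ x : ℝ × ℝ, f x = 0) ∧ (Continuous f → f = 0) := by
  have h0 : ∀ᵐ x : ℝ × ℝ, f x = 0 :=
    Pool.Agent.Helper34.Radon.ang_main ⟨htemp, hdir, hRadon⟩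
  refine ⟨h0, fun hf => ?_⟩
  exact (Continuous.ae_eq_iff_eq volume hf continuous_const).1 h0

end Pool.Agent.Results.MP_9de3af_an.NonuniformGrowth
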